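import Pool.Agent.TH977.PW.Inst

set_option autoImplicit false

/-!
# Pairs of almost prime Cunningham chains of both kinds around almost all of them

Let `k ≥ 1` and let `R k r` be the set of the `m` for which all prime factors of `2 ^ i m - 1` and of
`2 ^ i m + 1`, `0 ≤ i < k`, are larger than `m ^ (1 / r)`. These are the terms of the chain of the
first kind starting at `m - 1` and of the chain of the second kind starting at `m + 1` (bi-twin
chains); `R k r` contains all `m` for which both are Cunningham chains of length `k`. In every short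
interval `(X, X + Y]`, `Y ≥ X ^ θ`, there are at least `κ Y / log ^ (2 k) X` integers `m` in `R k r`
for which all terms have at most `r` prime factors. Let `A` be an ARBITRARY subset of `R k r` (these
`m`, or the `m` with two Cunningham chains). In every short interval all but
`ε Y / log ^ (2 k) X` of the elements of `A` are regular points of `A`.
-/

namespace Pool.Agent.Results.MP_c183ae_nt.RegularBiTwinChains

open Finset Filter
open Pool.Agent.TH977.PW (N Irregular)

/-- All prime factors of `2 ^ i m - 1` and of `2 ^ i m + 1`, `i < k`, are larger than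
`m ^ (1 / r)`. -/
def R (k r : ℕ) : Set ℕ :=
  {m | ∀ i < k, ∀ q : ℕ, q.Prime → (q : ℤ) ∣ ((2 : ℤ) ^ i * m - 1) * (2 ^ i * m + 1) →
    (m : ℝ) ^ (1 / (r : ℝ)) < (q : ℝ)}

/-- **Regular bi-twin chains.** -/
theorem result (k : ℕ) (hk : 1 ≤ k) (θ : ℝ) (hθ : 0 < θ) (hθ1 : θ ≤ 1) :
    ∃ r₀ : ℕ, 2 ≤ r₀ ∧ ∀ r : ℕ, r₀ ≤ r →
      (∀ m : ℕ, (∀ i < k, (2 ^ i * m - 1).Prime ∧ (2 ^ i * m + 1).Prime) → m ∈ R k r) ∧
      (∃ κ : ℝ, 0 < κ ∧ ∀ᶠ X : ℕ in atTop, ∀ Y : ℕ, (X : ℝ) ^ θ ≤ Y → Y ≤ X →
        κ * Y / Real.log X ^ (2 * k) ≤ N {m | m ∈ R k r ∧ ∀ i < k,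
          ((2 : ℤ) ^ i * m - 1).natAbs.primeFactorsList.length ≤ r ∧
          ((2 : ℤ) ^ i * m + 1).natAbs.primeFactorsList.length ≤ r} X (X + Y)) ∧
      ∀ ε : ℝ, 0 < ε → ∃ c : ℝ, 0 < c ∧ ∀ δ : ℝ, 0 < δ → ∃ B : ℕ,
        ∀ᶠ X : ℕ in atTop, ∀ Y : ℕ, (X : ℝ) ^ θ ≤ Y → 2 * Y ≤ X → ∀ A : Set ℕ, A ⊆ R k r →
          (N (Irregular A (2 * k) c δ B X Y) X (X + Y) : ℝ) ≤ ε * Y / Real.log X ^ (2 * k) := by
  have : Nonempty (Fin k × Bool) := ⟨(⟨0, by omega⟩, true)⟩
  have e1 : ∀ i m : ℕ, ((2 ^ i : ℕ) : ℤ) * (m : ℤ) + 1 = 2 ^ i * m + 1 := by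
    intro i m; push_cast; ring
  have e2 : ∀ i m : ℕ, ((2 ^ i : ℕ) : ℤ) * (m : ℤ) + -1 = 2 ^ i * m - 1 := by
    intro i m; push_cast; ring
  obtain ⟨r0, hr0, h⟩ := Pool.Agent.TH977.PW.final_lin
    (fun x : Fin k × Bool => 2 ^ x.1.1) (fun x : Fin k × Bool => if x.2 then (1 : ℤ) else -1)
    (fun i => by positivity)
    (fun i => by
      rcases i with ⟨i, b⟩
      cases b
      · simpa using (isCoprime_one_right (x := (2 : ℤ) ^ i.1)).neg_right
      · simpa using isCoprime_one_right)
    (fun i j h1 h2 => by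
      rcases i with ⟨i, b⟩
      rcases j with ⟨j, b'⟩
      have h3 := Nat.pow_right_injective le_rfl h1
      have h4 : i = j := Fin.ext h3
      subst h4
      cases b <;> cases b' <;> simp at h2 ⊢)
    (fun p hp => by
      refine ⟨0, fun i hi => ?_⟩
      rcases i with ⟨i, b⟩
      have h1 : (p : ℤ) ∣ 1 := by
        cases b
        · simpa using hi
        · simpa using hi
      have h2 : p ∣ 1 := by exact_mod_cast h1
      exact hp.one_lt.ne' (Nat.dvd_one.1 h2))
    (fun r => R k r)
    (fun r => {m | m ∈ R k r ∧ ∀ i < k,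
          ((2 : ℤ) ^ i * m - 1).natAbs.primeFactorsList.length ≤ r ∧
          ((2 : ℤ) ^ i * m + 1).natAbs.primeFactorsList.length ≤ r})
    (2 * k) (by rw [Fintype.card_prod, Fintype.card_fin, Fintype.card_bool, mul_comm])
    (fun r m _ hm i p hp hd => by
      rcases i with ⟨i, b⟩
      apply hm i.1 i.2 p hp
      cases b
      · simp only [Bool.false_eq_true, if_false] at hd
        rw [e2] at hd
        exact hd.mul_right _
      · simp only [if_true] at hd
        rw [e1] at hd
        exact hd.mul_left _)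
    (fun r m _ h1 h2 => by
      refine ⟨?_, ?_⟩
      · intro i hi q hq hd
        rcases (Nat.prime_iff_prime_int.1 hq).dvd_or_dvd hd with h3 | h3
        · refine h1 (⟨i, hi⟩, false) q hq ?_
          simp only [Bool.false_eq_true, if_false]
          rw [e2]
          exact h3
        · refine h1 (⟨i, hi⟩, true) q hq ?_
          simp only [if_true]
          rw [e1]
          exact h3
      · intro i hi
        constructor
        · have := h2 (⟨i, hi⟩, false)
          simp only [Bool.false_eq_true, if_false] at this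
          rw [e2] at this
          exact this
        · have := h2 (⟨i, hi⟩, true)
          simp only [if_true] at this
          rw [e1] at this
          exact this) θ hθ hθ1
  refine ⟨r0, hr0, fun r hr => ⟨?_, (h r hr).1, (h r hr).2⟩⟩
  intro m hm i hi q hq hd
  have hr2 := hr0.trans hr
  have hm3 : 3 ≤ m := by
    have h1 := (hm 0 (by omega)).1
    rw [pow_zero, one_mul] at h1
    have := h1.two_le
    omega
  have h2i : 1 ≤ 2 ^ i := Nat.one_le_two_pow
  have hge : m ≤ 2 ^ i * m := by nlinarith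
  have hq1 : m - 1 ≤ q := by
    rcases (Nat.prime_iff_prime_int.1 hq).dvd_or_dvd hd with h3 | h3
    · have e : (2 : ℤ) ^ i * m - 1 = ((2 ^ i * m - 1 : ℕ) : ℤ) := by
        rw [Nat.cast_sub (by omega)]
        push_cast
        ring
      rw [e, Int.natCast_dvd_natCast] at h3
      rw [(Nat.prime_dvd_prime_iff_eq hq (hm i hi).1).1 h3]
      omega
    · have e : (2 : ℤ) ^ i * m + 1 = ((2 ^ i * m + 1 : ℕ) : ℤ) := by
        push_cast
        ring
      rw [e, Int.natCast_dvd_natCast] at h3
      rw [(Nat.prime_dvd_prime_iff_eq hq (hm i hi).2).1 h3]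
      omega
  have hmr : (3 : ℝ) ≤ m := by exact_mod_cast hm3
  have h7 : (m : ℝ) ^ (1 / (r : ℝ)) ≤ √(m : ℝ) := by
    rw [Real.sqrt_eq_rpow]
    apply Real.rpow_le_rpow_of_exponent_le (by linarith)
    apply one_div_le_one_div_of_le (by norm_num)
    exact_mod_cast hr2
  have h8 : √(m : ℝ) < m - 1 := by
    rw [Real.sqrt_lt' (by linarith)]
    nlinarith
  have h9 : ((m - 1 : ℕ) : ℝ) ≤ q := by exact_mod_cast hq1
  rw [Nat.cast_sub (by omega), Nat.cast_one] at h9
  linarith

end Pool.Agent.Results.MP_c183ae_nt.RegularBiTwinChains
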